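import Pool.Agent.H76.SW.CT

/-!
Bounds for the edges of the evaluation of a program.
-/

namespace Pool.Agent.H65.SW

open Pool.Agent.H76.SW

lemma addRel_bound {n m : ℕ} {E : GrC} {Q : UqC}
    (h : ∀ e ∈ E, e.1.1 < n ∧ e.2 < n ∧ e.1.2 < m) :
    ∀ e ∈ addRel n E m Q, e.1.1 < n ∧ e.2 < n ∧ e.1.2 < m + 1 := by
  classical
  intro e he
  rw [addRel, List.mem_append] at he
  rcases he with he | he
  · obtain ⟨h1, h2, h3⟩ := h e he
    exact ⟨h1, h2, by omega⟩
  · rw [List.mem_flatMap] at he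
    obtain ⟨u, hu, he⟩ := he
    rw [List.mem_flatMap] at he
    obtain ⟨v, hv, he⟩ := he
    rw [List.mem_range] at hu hv
    by_cases hc : UqSat n E Q [u, v]
    · rw [if_pos hc, List.mem_singleton] at he
      rw [he]
      exact ⟨hu, hv, by simp⟩
    · rw [if_neg hc] at he
      simp at he

lemma fold_bound {n : ℕ} (defs : List UqC) : ∀ (m : ℕ) (E : GrC),
    (∀ e ∈ E, e.1.1 < n ∧ e.2 < n ∧ e.1.2 < m) →
    ∀ e ∈ (defs.foldl (fun x Q => (addRel n x.1 x.2 Q, x.2 + 1)) (E, m)).1,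
      e.1.1 < n ∧ e.2 < n ∧ e.1.2 < m + defs.length := by
  induction defs with
  | nil => intro m E h e he; simpa using h e he
  | cons Q defs ih =>
    intro m E h e he
    rw [List.foldl_cons] at he
    have h1 := ih (m + 1) (addRel n E m Q) (addRel_bound h) e he
    rw [List.length_cons]
    exact ⟨h1.1, h1.2.1, by omega⟩

theorem pf_CPB : V_PB := by
  intro n a E hE defs
  exact fold_bound defs a E fun e he => ⟨(hE e he).1, (hE e he).2.2, (hE e he).2.1⟩

end Pool.Agent.H65.SW
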