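import Pool.Agent.H76.SW.T

/-!
Atoms for facts and for further symbols.
-/

namespace Pool.Agent.H65.SW

open Relation Pool.Agent.H76.SW

section

variable {A Q : Type} [Fintype Q]

/-- The automaton of a fact. -/
noncomputable def factNFA (tr : Q → A × Bool → Q → Prop) (c : ℕ) (s s' : Q) :
    NFA ((A ⊕ Fin c) × Bool) (Fin (Fintype.card Q)) where
  step x l := {y | ∃ a, l.1 = Sum.inl a ∧
    tr ((Fintype.equivFin Q).symm x) (a, l.2) ((Fintype.equivFin Q).symm y)}
  start := {Fintype.equivFin Q s}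
  accept := {Fintype.equivFin Q s'}

lemma fact_letters (tr : Q → A × Bool → Q → Prop) (c : ℕ) (s s' : Q)
    (w : List ((A ⊕ Fin c) × Bool)) :
    ∀ (S : Set (Fin (Fintype.card Q))) (y : Fin (Fintype.card Q)),
      y ∈ (factNFA tr c s s').evalFrom S w → ∀ l ∈ w, ∃ a, l.1 = Sum.inl a := by
  induction w with
  | nil => intro S y _ l hl; simp at hl
  | cons m w ih =>
    intro S y hy l hl
    rw [NFA.evalFrom_cons] at hy
    rcases List.mem_cons.1 hl with h | h
    · rw [NFA.mem_evalFrom_iff_exists] at hy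
      obtain ⟨t, ht, -⟩ := hy
      rw [NFA.mem_stepSet] at ht
      obtain ⟨z, -, a, ha, -⟩ := ht
      exact ⟨a, by rw [h]; exact ha⟩
    · exact ih _ _ hy l h

lemma fact_to (tr : Q → A × Bool → Q → Prop) (c : ℕ) (s s' : Q) {V : Type}
    (E : V → A → V → Prop) (R : Fin c → V → V → Prop) (v : V)
    (w : List ((A ⊕ Fin c) × Bool)) :
    ∀ (u : V) (q : Q), Fintype.equivFin Q s' ∈
      (factNFA tr c s s').evalFrom {Fintype.equivFin Q q} w → Path (ext E R) u w v →
      Reach E tr (u, q) (v, s') := by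
  induction w with
  | nil =>
    intro u q h hp
    rw [NFA.evalFrom_nil, Set.mem_singleton_iff, EmbeddingLike.apply_eq_iff_eq] at h
    cases hp
    rw [h]
    exact ReflTransGen.refl
  | cons m w ih =>
    intro u q h hp
    cases hp with
    | cons _ u1 _ _ _ hs hp' =>
    rw [NFA.evalFrom_cons, NFA.stepSet_singleton, NFA.mem_evalFrom_iff_exists] at h
    obtain ⟨t, ⟨a, ha, htr⟩, ht⟩ := h
    obtain ⟨q1, rfl⟩ : ∃ q1, t = Fintype.equivFin Q q1 :=
      ⟨(Fintype.equivFin Q).symm t, by simp⟩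
    rw [Equiv.symm_apply_apply, Equiv.symm_apply_apply] at htr
    refine ReflTransGen.head ⟨(a, m.2), ?_, htr⟩ (ih u1 q1 ht hp')
    obtain ⟨m1, m2⟩ := m
    simp only at ha
    subst ha
    exact hs

lemma fact_from (tr : Q → A × Bool → Q → Prop) (c : ℕ) (s s' : Q) {V : Type}
    (E : V → A → V → Prop) (R : Fin c → V → V → Prop) (v : V) {x : V × Q}
    (h : Reach E tr x (v, s')) :
    ∃ w, Fintype.equivFin Q s' ∈ (factNFA tr c s s').evalFrom {Fintype.equivFin Q x.2} w ∧
      Path (ext E R) x.1 w v := by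
  induction h using ReflTransGen.head_induction_on with
  | refl => exact ⟨[], by simp, Path.nil _⟩
  | @head x y hxy _ ih =>
    obtain ⟨w, hw, hp⟩ := ih
    obtain ⟨⟨a, b⟩, hs, htr⟩ := hxy
    refine ⟨(Sum.inl a, b) :: w, ?_, Path.cons _ y.1 _ _ _ hs hp⟩
    rw [NFA.evalFrom_cons, NFA.stepSet_singleton, NFA.mem_evalFrom_iff_exists]
    exact ⟨Fintype.equivFin Q y.2, ⟨a, rfl, by simpa using htr⟩, hw⟩

end

theorem pf_Q2 : U_q2_fact := by
  intro A Q _ tr c s s'
  refine ⟨factNFA tr c s s', ?_, ?_⟩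
  · intro w hw
    rw [NFA.mem_accepts] at hw
    obtain ⟨y, -, hy⟩ := hw
    exact fact_letters tr c s s' w _ y hy
  · intro V E R u v
    constructor
    · rintro ⟨w, hw, hp⟩
      rw [NFA.mem_accepts] at hw
      obtain ⟨y, hy1, hy⟩ := hw
      rw [show y = Fintype.equivFin Q s' from hy1] at hy
      exact fact_to tr c s s' E R v w u s hy hp
    · intro h
      obtain ⟨w, hw, hp⟩ := fact_from tr c s s' E R v h
      refine ⟨w, ?_, hp⟩
      rw [NFA.mem_accepts]
      exact ⟨_, rfl, hw⟩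

/-- The automaton of a further symbol. -/
def symNFA (A : Type) (c : ℕ) (j : Fin c) : NFA ((A ⊕ Fin c) × Bool) (Fin 2) where
  step x l := {y | x = 0 ∧ y = 1 ∧ l = (Sum.inr j, true)}
  start := {0}
  accept := {1}

lemma sym_accepts (A : Type) (c : ℕ) (j : Fin c) :
    (symNFA A c j).accepts = {[(Sum.inr j, true)]} := by
  ext w
  rw [NFA.mem_accepts]
  change _ ↔ w = [(Sum.inr j, true)]
  constructor
  · rintro ⟨y, hy1, hy⟩
    have hy1' : y = 1 := hy1
    subst hy1'
    cases w with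
    | nil =>
      rw [NFA.evalFrom_nil] at hy
      exact absurd (show (1 : Fin 2) = 0 from hy) (by decide)
    | cons l w =>
      rw [NFA.evalFrom_cons, NFA.mem_evalFrom_iff_exists] at hy
      obtain ⟨t, ht, hy⟩ := hy
      rw [NFA.mem_stepSet] at ht
      obtain ⟨z, -, -, ht1, hl⟩ := ht
      subst ht1
      cases w with
      | nil => rw [hl]
      | cons l' w =>
        rw [NFA.evalFrom_cons, NFA.mem_evalFrom_iff_exists] at hy
        obtain ⟨t, ht, -⟩ := hy
        rw [NFA.mem_stepSet] at ht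
        obtain ⟨z, hz, hz0, -⟩ := ht
        rw [Set.mem_singleton_iff.1 hz] at hz0
        exact absurd hz0 (by decide)
  · rintro rfl
    refine ⟨1, rfl, ?_⟩
    rw [NFA.evalFrom_cons, NFA.evalFrom_nil, NFA.mem_stepSet]
    exact ⟨0, rfl, rfl, rfl, rfl⟩

theorem pf_Q3 : U_q3_letter := by
  intro A c j
  refine ⟨symNFA A c j, sym_accepts A c j, ?_⟩
  intro V E R u v
  rw [sym_accepts]
  constructor
  · rintro ⟨w, hw, hp⟩
    rw [show w = [(Sum.inr j, true)] from hw] at hp
    cases hp with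
    | cons _ u1 _ _ _ hs hp' =>
    cases hp'
    exact hs
  · intro h
    refine ⟨_, rfl, Path.cons _ v _ _ _ ?_ (Path.nil _)⟩
    exact h

end Pool.Agent.H65.SW
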