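import Pool.Agent.H76.SW.T

/-!
A body consisting of facts and of further symbols.
-/

namespace Pool.Agent.H65.SW

open Relation Pool.Agent.H76.SW

section

variable {A Q : Type} [Fintype Q] {a w : ℕ}

/-- Number of states. -/
def stS (Q : Type) [Fintype Q] (a w : ℕ) : Fin a ⊕ Fin w → ℕ :=
  Sum.elim (fun _ => Fintype.card Q) (fun _ => 2)

/-- The automata. -/
def autS (M : Fin a → NFA ((A ⊕ Fin w) × Bool) (Fin (Fintype.card Q)))
    (N : Fin w → NFA ((A ⊕ Fin w) × Bool) (Fin 2)) :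
    (x : Fin a ⊕ Fin w) → NFA ((A ⊕ Fin w) × Bool) (Fin (stS Q a w x))
  | .inl i => M i
  | .inr j => N j

/-- The body. -/
def bodyS (n : ℕ) (s t : Fin a ⊕ Fin w → Fin n)
    (M : Fin a → NFA ((A ⊕ Fin w) × Bool) (Fin (Fintype.card Q)))
    (N : Fin w → NFA ((A ⊕ Fin w) × Bool) (Fin 2)) : Body A w where
  n := n
  m := a + w
  src i := s (finSumFinEquiv.symm i)
  tgt i := t (finSumFinEquiv.symm i)
  st i := stS Q a w (finSumFinEquiv.symm i)
  aut i := autS M N (finSumFinEquiv.symm i)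

lemma forall_fs {T : Fin a ⊕ Fin w → Prop} :
    (∀ i : Fin (a + w), T (finSumFinEquiv.symm i)) ↔
      (∀ i, T (.inl i)) ∧ ∀ j, T (.inr j) := by
  rw [← Sum.forall]
  constructor
  · intro h y
    have := h (finSumFinEquiv y)
    rwa [Equiv.symm_apply_apply] at this
  · intro h i
    exact h _

lemma bodyS_holds {n : ℕ} {s t : Fin a ⊕ Fin w → Fin n}
    {M : Fin a → NFA ((A ⊕ Fin w) × Bool) (Fin (Fintype.card Q))}
    {N : Fin w → NFA ((A ⊕ Fin w) × Bool) (Fin 2)} {V : Type} {E : V → A → V → Prop}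
    {R : Fin w → V → V → Prop} {μ : Fin n → V} :
    (bodyS n s t M N).Holds E R μ ↔
      (∀ i, ∃ x ∈ (M i).accepts, Path (ext E R) (μ (s (.inl i))) x (μ (t (.inl i)))) ∧
      ∀ j, ∃ x ∈ (N j).accepts, Path (ext E R) (μ (s (.inr j))) x (μ (t (.inr j))) :=
  forall_fs (T := fun y => ∃ x ∈ (autS M N y).accepts,
    Path (ext E R) (μ (s y)) x (μ (t y)))

lemma bodyS_simple {n : ℕ} {s t : Fin a ⊕ Fin w → Fin n}
    {M : Fin a → NFA ((A ⊕ Fin w) × Bool) (Fin (Fintype.card Q))}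
    {N : Fin w → NFA ((A ⊕ Fin w) × Bool) (Fin 2)}
    (hM : ∀ i, ∀ x ∈ (M i).accepts, ∀ l ∈ x, ∃ b, l.1 = Sum.inl b)
    (hN : ∀ j, (N j).accepts = {[(Sum.inr j, true)]}) : (bodyS n s t M N).Simple :=
  forall_fs (T := fun y => (∀ x ∈ (autS M N y).accepts, ∀ l ∈ x, ∃ b, l.1 = Sum.inl b) ∨
    ∃ j, (autS M N y).accepts = {[(Sum.inr j, true)]}) |>.2
    ⟨fun i => Or.inl (hM i), fun j => Or.inr ⟨j, hN j⟩⟩

lemma bodyS_size {n : ℕ} {s t : Fin a ⊕ Fin w → Fin n}
    {M : Fin a → NFA ((A ⊕ Fin w) × Bool) (Fin (Fintype.card Q))}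
    {N : Fin w → NFA ((A ⊕ Fin w) × Bool) (Fin 2)} :
    (bodyS n s t M N).size = w + n + (a + w) + (a * Fintype.card Q + w * 2) := by
  have h1 : ∑ i : Fin (a + w), stS Q a w (finSumFinEquiv.symm i) =
      a * Fintype.card Q + w * 2 := by
    rw [Equiv.sum_comp finSumFinEquiv.symm (stS Q a w), Fintype.sum_sum_type]
    simp [stS]
  change w + n + (a + w) + ∑ i : Fin (a + w), stS Q a w (finSumFinEquiv.symm i) = _
  rw [h1]

lemma bodyS_adj {n : ℕ} {s t : Fin a ⊕ Fin w → Fin n}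
    {M : Fin a → NFA ((A ⊕ Fin w) × Bool) (Fin (Fintype.card Q))}
    {N : Fin w → NFA ((A ⊕ Fin w) × Bool) (Fin 2)} {x y : Fin n}
    (h : (bodyS n s t M N).graph.Adj x y) :
    x ≠ y ∧ ((∃ i : Fin a, (s (.inl i) = x ∧ t (.inl i) = y) ∨ (s (.inl i) = y ∧ t (.inl i) = x)) ∨
      ∃ j : Fin w, (s (.inr j) = x ∧ t (.inr j) = y) ∨ (s (.inr j) = y ∧ t (.inr j) = x)) := by
  obtain ⟨h1, i, hi⟩ := h
  refine ⟨h1, ?_⟩
  have hi' : (s (finSumFinEquiv.symm i) = x ∧ t (finSumFinEquiv.symm i) = y) ∨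
    (s (finSumFinEquiv.symm i) = y ∧ t (finSumFinEquiv.symm i) = x) := hi
  rcases h2 : finSumFinEquiv.symm i with k | k
  · rw [h2] at hi'; exact Or.inl ⟨k, hi'⟩
  · rw [h2] at hi'; exact Or.inr ⟨k, hi'⟩

end

theorem pf_Q4 (h1 : U_q2_fact) (h2 : U_q3_letter) (h3 : U_d9_mono) : U_q4_body := by
  intro A Q _ tr VT _ F w l1 l2
  classical
  let e := Fintype.equivFin VT
  let I := {x // x ∈ F}
  obtain ⟨a, ha⟩ : ∃ a, a = Fintype.card I := ⟨_, rfl⟩
  let f : Fin a ≃ I := (Fintype.equivFinOfCardEq ha.symm).symm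
  choose M hM1 hM2 using fun i : Fin a => h1 tr w (f i).1.1.2 (f i).1.2.2
  choose N hN1 hN2 using fun j : Fin w => h2 (A := A) w j
  let s : Fin a ⊕ Fin w → Fin (Fintype.card VT) :=
    Sum.elim (fun i => e (f i).1.1.1) (fun j => e (l1 j))
  let t : Fin a ⊕ Fin w → Fin (Fintype.card VT) :=
    Sum.elim (fun i => e (f i).1.2.1) (fun j => e (l2 j))
  refine ⟨bodyS (Fintype.card VT) s t M N, e, ?_, bodyS_simple hM1 hN1, ?_, ?_⟩
  · intro V E R μ
    rw [bodyS_holds]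
    refine and_congr ?_ ?_
    · constructor
      · rintro h x ⟨y, hy, rfl⟩
        have h4 := (hM2 (f.symm ⟨y, hy⟩) V E R _ _).1 (h (f.symm ⟨y, hy⟩))
        simp only [s, t, Sum.elim_inl, Equiv.apply_symm_apply] at h4
        exact h4
      · intro h i
        exact (hM2 i V E R _ _).2 (h _ ⟨(f i).1, (f i).2, rfl⟩)
    · exact forall_congr' fun j => hN2 j V E R _ _
  · rw [bodyS_size]
    have h4 : a ≤ (Fintype.card VT * Fintype.card Q) ^ 2 := by
      rw [ha, sq, ← Fintype.card_prod, ← Fintype.card_prod]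
      exact Fintype.card_subtype_le _
    have h5 := Nat.mul_le_mul_right (Fintype.card Q) h4
    rw [bsz]
    omega
  · intro G k hF hl hk
    refine h3 G _ e.symm.toEmbedding ?_ k k (le_refl k) hk
    intro x y hxy
    obtain ⟨hne, h4⟩ := bodyS_adj hxy
    have hne' : e.symm x ≠ e.symm y := fun h => hne (e.symm.injective h)
    rcases h4 with ⟨i, h4⟩ | ⟨j, h4⟩
    · simp only [s, t, Sum.elim_inl] at h4
      have h5 : ((((f i).1.1.1, (f i).1.1.2) : VT × Q), (((f i).1.2.1, (f i).1.2.2) : VT × Q)) ∈ F :=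
        (f i).2
      rcases h4 with ⟨h6, h7⟩ | ⟨h6, h7⟩
      · rw [← h6, ← h7] at hne'
        change G.Adj (e.symm x) (e.symm y)
        rw [← h6, ← h7, Equiv.symm_apply_apply, Equiv.symm_apply_apply]
        rw [Equiv.symm_apply_apply, Equiv.symm_apply_apply] at hne'
        exact hF _ _ _ _ h5 hne'
      · rw [← h6, ← h7] at hne'
        change G.Adj (e.symm x) (e.symm y)
        rw [← h6, ← h7, Equiv.symm_apply_apply, Equiv.symm_apply_apply]
        rw [Equiv.symm_apply_apply, Equiv.symm_apply_apply] at hne'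
        exact (hF _ _ _ _ h5 hne'.symm).symm
    · simp only [s, t, Sum.elim_inr] at h4
      rcases h4 with ⟨h6, h7⟩ | ⟨h6, h7⟩
      · rw [← h6, ← h7] at hne'
        change G.Adj (e.symm x) (e.symm y)
        rw [← h6, ← h7, Equiv.symm_apply_apply, Equiv.symm_apply_apply]
        rw [Equiv.symm_apply_apply, Equiv.symm_apply_apply] at hne'
        exact hl j hne'
      · rw [← h6, ← h7] at hne'
        change G.Adj (e.symm x) (e.symm y)
        rw [← h6, ← h7, Equiv.symm_apply_apply, Equiv.symm_apply_apply]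
        rw [Equiv.symm_apply_apply, Equiv.symm_apply_apply] at hne'
        exact (hl j hne'.symm).symm

end Pool.Agent.H65.SW
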